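import Pool.Agent.MVC.Count

/-!
# Exponentially many Minkowski-Voronoi complexes with a given number of vertices

Partial result on the counting function of the Minkowski-Voronoi complexes of full-rank sublattices
of `ℤ^n` (Q1). For every `n ≥ 3` there are constants `c > 0` and `C` such that every interval
`[M, C M]` contains a number `N` of vertices with at least `exp (c N)` pairwise different complexes.
So the numbers `c_n(N)` are not bounded by any function of subexponential growth. The lattices are
built from continued fractions with partial quotients `2` and `4`, and the sequence of the partial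
quotients can be read off from the complex once `n - 1` of its relative minima are marked.
-/

set_option autoImplicit false

namespace Pool.Agent.Results.MP_2581ba_nt.ManyComplexes

open Pool.Agent.MVC

/-- For every `n ≥ 3` there are constants `c > 0` and `C` such that for every `M ≥ 1` there is a
number `N` with `M ≤ N ≤ C M` for which the number `cnt n N` of the classes of the complexes
`MV(|Γ|)` with exactly `N` vertices, for `Γ` a full-rank sublattice of `ℤ^n`, is at least
`exp (c N)`. -/
theorem result (n : ℕ) (hn : 3 ≤ n) :
    ∃ (c : ℝ) (C : ℕ), 0 < c ∧ ∀ M : ℕ, 1 ≤ M → ∃ N, M ≤ N ∧ N ≤ C * M ∧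
      ∃ r : ℕ, Real.exp (c * N) ≤ r ∧ (r : ℕ∞) ≤ cnt n N := by
  obtain ⟨m, rfl⟩ : ∃ m, n = m + 3 := ⟨n - 3, by omega⟩
  exact asym m fun k hk => count_k m k hk

end Pool.Agent.Results.MP_2581ba_nt.ManyComplexes
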